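import Mathlib
import Pool.Agent.J6H21.LS.Main
import Pool.Agent.N753.SU.Idl
import Pool.Agent.N753.SU.Od
import Pool.Agent.N73.SU.SU_RM
import Pool.Agent.N222.SU_OM
import Pool.Agent.N348.SU_UZM
import Pool.Agent.N199.SU_B
import Pool.Agent.N123.OD1
import Pool.Agent.N692.SU.OD2
import Pool.Agent.N478.SU.OD3

/-!
# The strong Lang-Silverman alternative in all families of elliptic curves with any number of
# parameters over number fields: one exceptional set of parameters

Let `K` be a number field and `m ≥ 1`. There is ONE set `E` of density zero of points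
`x = (x_1, …, x_m)` over `K` (at most `C B ^ (2 m) exp (- √ log B)` points of height at most `B`)
which serves all families: let `V` be any variety with a finite map of degree `N` to the affine
space of dimension `m` over `K` (`A` is its ring of functions, a domain, finite over
`K[x_1, …, x_m]`) and `j = c / b` any non-constant rational function on `V`, for example the
invariant of any non-isotrivial elliptic curve over the field of rational functions of `V`. For all
`x` outside `E` of height at least `h₀` (which depends on `V` and `j`) and all points `P` of `V` of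
degree `N` above `x` at which `j` is defined, the strong form of the Lang-Silverman alternative
holds for all elliptic curves of invariant `j(P)` (all twists) over all extensions of degree at most
`d` over `ℚ` of the residue field `L = K(P)`, for all forms of their `g`-th powers, all polarizations
and all rational points. The constants `c₁ > 0`, `c₂` depend only on `d`, `g`, `κ` (see below) and on
a bound `ρ` for `h(j(P)) / h(x)`, which is bounded on each family.

`E : y² = x³ + a x + b` is an elliptic curve with `a`, `b` integral of height at most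
`κ (1 + h(j))`.  A finite Galois extension `L` of `K` and a faithful representation `ρ` of its
group by integral matrices of size `g` define an abelian variety `A` over `K`, the form of `E ^ g`
with `A(K) = {P ∈ E(L) ^ g | ρ(σ) σ(P) = P for all σ}` (`FixedPt ρ P`); for `g = 1` these are `E`
and all its quadratic twists.  A symmetric positive definite integral matrix `M` with
`ρ(σ)ᵀ M ρ(σ) = M` (`Polar ρ M`) is a polarization of `A` over `K`; the corresponding absolute
canonical height is `chatM M P / [L : ℚ]`. `SubvarLe c ρ M P` is the first alternative: `n P` is in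
an abelian subvariety `B` over `K`, `B ≠ A`, for some positive `n ≤ c`, and the degree of `B` is at
most `c` times that of `A`. `RamPrimes K T` says that for each prime `v` in `T` there is `σ ≠ 1` in
the inertia group, `logNorms T` is the sum of `log N v`, `v ∈ T`, and `absH` is the absolute
logarithmic height.
-/

set_option autoImplicit false

namespace Pool.Agent.Results.MP_f5471b_nt.AllFamiliesManyParameters

open NumberField IsDedekindDomain Pool.Agent.TH910.LS Pool.Agent.Y725.LS

/-- the logarithmic height of the point `x`: the maximum of the heights (relative to `K`) of its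
coordinates -/
noncomputable def height {K : Type} [Field K] [NumberField K] {m : ℕ} (x : Fin m → K) : ℝ :=
  ⨆ i, Height.logHeight₁ (x i)

/-- `φ` is a point above `x`, with residue field `L`, of the variety with the ring of functions
`A` -/
def IsPoint {K : Type} [Field K] {m : ℕ} {A : Type} [CommRing A]
    [Algebra (MvPolynomial (Fin m) K) A] (x : Fin m → K) {L : Type} [Field L] [Algebra K L]
    (φ : A →+* L) : Prop :=
  Function.Surjective φ ∧ ∀ f : MvPolynomial (Fin m) K,
    φ (algebraMap (MvPolynomial (Fin m) K) A f) = algebraMap K L (MvPolynomial.eval x f)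

/-- the alternative, with the constants `c₁` and `c₂`, for all forms of dimension `g` of the powers
of the curve `y² = x³ + a x + b` over `K` that are split by `L` -/
def Alternative (c₁ : ℝ) (c₂ g : ℕ) {K : Type} [Field K] [NumberField K] (a b : 𝓞 K) (L : Type)
    [Field L] [NumberField L] [Algebra K L] [DecidableEq L] : Prop :=
  ∀ (ρ : (L ≃ₐ[K] L) →* Matrix (Fin g) (Fin g) ℤ) (M : Matrix (Fin g) (Fin g) ℤ)
    (P : Fin g → Pts L a b) (T : Finset (HeightOneSpectrum (𝓞 L))),
    Faithful ρ → Polar ρ M → FixedPt ρ P → RamPrimes K T →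
      SubvarLe c₂ ρ M P ∨
      (¬ IsOfFinAddOrder P ∧
        c₁ * (1 + absH (jinv (a : K) b) + logNorms T / Module.finrank ℚ L) ≤
          chatM M P / Module.finrank ℚ L)

/-- the alternative, with constants `c₁` and `c₂`, holds for all elliptic curves of invariant `j`
over all number fields of degree at most `d` containing the number field `k ∋ j`, given by an
integral equation `y² = x³ + a x + b` whose coefficients have height at most `κ (1 + h(j))`, and for
all forms of dimension `g` of their powers -/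
def HoldsAt (c₁ : ℝ) (c₂ d g : ℕ) (κ : ℝ) {k : Type} [Field k] [NumberField k] (j : k) : Prop :=
  ∀ (K : Type) [Field K] [NumberField K] [Algebra k K], Module.finrank ℚ K ≤ d →
    ∀ a b : 𝓞 K, 4 * (a : K) ^ 3 + 27 * (b : K) ^ 2 ≠ 0 →
      absH (a : K) + absH (b : K) ≤ κ * (1 + absH (jinv (a : K) b)) →
      jinv (a : K) b = algebraMap k K j →
      ∀ (L : Type) [Field L] [NumberField L] [Algebra K L] [IsGalois K L] [DecidableEq L],
        ChatLim L a b ∧ Alternative c₁ c₂ g a b L

open Pool.Agent.N753.SU in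
theorem stmOD : StmOD :=
  Pool.Agent.N753.SU.stmOD (Pool.Agent.N692.SU.od2 Pool.Agent.N123.OD1.od1)
    Pool.Agent.N478.SU.stmOD3

open Pool.Agent.N753.SU in
theorem stmLM : StmLM :=
  Pool.Agent.N753.SU.stmLM Pool.Agent.N348.SU.um Pool.Agent.N348.SU.zm Pool.Agent.N199.SU.stmB1
    Pool.Agent.N199.SU.stmB2 Pool.Agent.N199.SU.stmB3

open Pool.Agent.N753.SU Pool.Agent.N753.LS Pool.Agent.H691R3 Pool.Agent.J6H21.LS in
/-- the exceptional set -/
theorem exists_exc (K : Type) [Field K] [NumberField K] (m : ℕ) (hm : 0 < m) :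
    ∃ E1 E2 : Set (Fin m → K), Prop1 E1 ∧ Prop2 E2 ∧
      ∃ C : ℝ, ∀ B : ℝ, 1 ≤ B →
        {x | (x ∈ E1 ∪ E2 ∨ ∃ i, flipI i x ∈ E1 ∪ E2) ∧
          ∀ i, Height.mulHeight₁ (x i) ≤ B}.Finite ∧
        ({x | (x ∈ E1 ∪ E2 ∨ ∃ i, flipI i x ∈ E1 ∪ E2) ∧
          ∀ i, Height.mulHeight₁ (x i) ≤ B}.ncard : ℝ) ≤
          C * B ^ (2 * m) * Real.exp (-√(Real.log B)) := by
  classical
  obtain ⟨E1, hE1, hmain⟩ := all_div K Pool.Agent.N73.SURM.stmRM Pool.Agent.N348.SU.um
    Pool.Agent.N348.SU.zm stmLM stmOD Pool.Agent.N222.SUOM.stmOM Pool.Agent.N199.SU.stmB4 m hm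
  obtain ⟨E2, hE2, hidl⟩ := all_idl K Pool.Agent.N348.SU.um Pool.Agent.N348.SU.zm
    Pool.Agent.N199.SU.stmB1 Pool.Agent.N199.SU.stmB2 Pool.Agent.N199.SU.stmB3 m hm
  refine ⟨E1, E2, hmain, hidl, 4 * (m + 1), fun B hB => ?_⟩
  have hB0 : 0 < B := by linarith
  have hlog : 0 ≤ Real.log B := Real.log_nonneg hB
  obtain ⟨S, hS⟩ : ∃ S : Set (Fin m → K), S = (E1 ∩ {x | htm x ≤ Real.log B}) ∪
    (E2 ∩ {x | htm x ≤ Real.log B}) := ⟨_, rfl⟩
  have hf : ∀ E : Set (Fin m → K), (E ∩ {x | htm x ≤ Real.log B}).Finite := fun E =>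
    (box_fin (Real.log B)).subset Set.inter_subset_right
  have hSf : S.Finite := by
    rw [hS]
    exact (hf E1).union (hf E2)
  have hSc : (S.ncard : ℝ) ≤ 4 * Real.exp (2 * m * Real.log B - √(Real.log B)) := by
    have h1 := Set.ncard_union_le (E1 ∩ {x | htm x ≤ Real.log B}) (E2 ∩ {x | htm x ≤ Real.log B})
    have h2 : ((E1 ∩ {x | htm x ≤ Real.log B} ∪ E2 ∩ {x | htm x ≤ Real.log B}).ncard : ℝ) ≤
        (E1 ∩ {x | htm x ≤ Real.log B}).ncard + (E2 ∩ {x | htm x ≤ Real.log B}).ncard := by
      exact_mod_cast h1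
    rw [hS]
    refine h2.trans ((add_le_add (hE1 _ hlog) (hE2 _ hlog)).trans (le_of_eq ?_))
    ring
  have h3 : Real.exp (2 * m * Real.log B - √(Real.log B)) =
      B ^ (2 * m) * Real.exp (-√(Real.log B)) := by
    rw [sub_eq_add_neg, Real.exp_add]
    congr 1
    rw [mul_comm, Real.exp_mul, Real.exp_log hB0]
    exact_mod_cast Real.rpow_natCast B (2 * m)
  have hht : ∀ x : Fin m → K, (∀ i, Height.mulHeight₁ (x i) ≤ B) ↔ htm x ≤ Real.log B := by
    intro x
    have h1 : ∀ i, Height.mulHeight₁ (x i) ≤ B ↔ Height.logHeight₁ (x i) ≤ Real.log B := by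
      intro i
      unfold Height.logHeight₁
      exact (Real.log_le_log_iff (Height.mulHeight₁_pos _) hB0).symm
    constructor
    · intro h
      exact htm_le hm fun i => (h1 i).1 (h i)
    · intro h i
      exact (h1 i).2 ((le_htm x i).trans h)
  have hsub : {x : Fin m → K | (x ∈ E1 ∪ E2 ∨ ∃ i, flipI i x ∈ E1 ∪ E2) ∧
      ∀ i, Height.mulHeight₁ (x i) ≤ B} ⊆
      ((hSf.toFinset ∪ Finset.univ.biUnion fun i : Fin m => hSf.toFinset.image (flipI i) :
        Finset (Fin m → K)) : Set (Fin m → K)) := by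
    rintro x ⟨hx, hxB⟩
    rw [hht] at hxB
    rw [Finset.mem_coe, Finset.mem_union]
    rcases hx with hx | ⟨i, hx⟩
    · left
      rw [Set.Finite.mem_toFinset, hS, ← Set.union_inter_distrib_right]
      exact ⟨hx, hxB⟩
    · right
      refine Finset.mem_biUnion.2 ⟨i, Finset.mem_univ _, Finset.mem_image.2 ⟨flipI i x, ?_,
        flipI_flipI i x⟩⟩
      rw [Set.Finite.mem_toFinset, hS, ← Set.union_inter_distrib_right]
      exact ⟨hx, by
        show htm (flipI i x) ≤ _
        rwa [htm_flipI]⟩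
  refine ⟨(Finset.finite_toSet _).subset hsub, ?_⟩
  have h4 := Set.ncard_le_ncard hsub (Finset.finite_toSet _)
  rw [Set.ncard_coe_finset] at h4
  have h5 : (hSf.toFinset ∪ Finset.univ.biUnion fun i : Fin m =>
      hSf.toFinset.image (flipI i)).card ≤ (m + 1) * S.ncard := by
    refine (Finset.card_union_le _ _).trans ?_
    have h6 : (Finset.univ.biUnion fun i : Fin m => hSf.toFinset.image (flipI i)).card ≤
        m * S.ncard := by
      refine Finset.card_biUnion_le.trans ?_
      refine (Finset.sum_le_sum fun i _ => Finset.card_image_le).trans ?_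
      rw [Finset.sum_const, Finset.card_univ, Fintype.card_fin, smul_eq_mul,
        Set.ncard_eq_toFinset_card S hSf]
    rw [← Set.ncard_eq_toFinset_card S hSf]
    linarith
  have h6 : ({x | (x ∈ E1 ∪ E2 ∨ ∃ i, flipI i x ∈ E1 ∪ E2) ∧
      ∀ i, Height.mulHeight₁ (x i) ≤ B}.ncard : ℝ) ≤ ((m + 1) * S.ncard : ℕ) := by
    exact_mod_cast h4.trans h5
  refine h6.trans ?_
  push_cast
  have h7 : ((m : ℝ) + 1) * S.ncard ≤
      (m + 1) * (4 * Real.exp (2 * m * Real.log B - √(Real.log B))) :=
    mul_le_mul_of_nonneg_left hSc (by positivity)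
  rw [h3] at h7
  linarith

open Pool.Agent.N753.LS Pool.Agent.H691R3 Pool.Agent.J6H21.LS in
/-- **Theorem.** For all `d`, `g ≥ 1`, `κ ≥ 0` and `ρ ≥ 0` there are constants `c₁ > 0` and `c₂`
(`c₁ d g κ ρ`, `c₂ d g κ ρ`), and for every number field `K` and every `m ≥ 1` there is a set `E` of
points over `K` of the affine space of dimension `m`, which contains at most
`C B ^ (2 m) exp (- √ log B)` points with coordinates of height at most `B`, with the following
property. Let `A` be a domain, finite over `K[x_1, …, x_m]` and containing it, and `j = c / b`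
(`b`, `c` in `A`) be transcendental over `K`. (1) `h(j(P)) ≤ C [L : K] (h(x) + 1)` for all points `P`
of `Spec A` above `x`, with residue field `L`, with `b(P) ≠ 0`. (2) There is `h₀` such that for all
`x` outside `E` with `h(x) ≥ h₀` and all such points `P` of degree `[L : K] = rank A` above `x`: if
`h(j(P)) ≤ ρ h(x)` then `HoldsAt (c₁ d g κ ρ) (c₂ d g κ ρ) d g κ (j(P))`. Moreover, every
`j ≠ 0, 1728` is the invariant of a curve with small coefficients, as assumed in `HoldsAt`, with a
`κ` depending only on `d`. -/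
theorem result :
    (∃ (c₁ : ℕ → ℕ → ℝ → ℝ → ℝ) (c₂ : ℕ → ℕ → ℝ → ℝ → ℕ), (∀ d g κ ρ, 0 < c₁ d g κ ρ) ∧
      ∀ (K : Type) [Field K] [NumberField K] (m : ℕ), 0 < m → ∃ E : Set (Fin m → K),
        (∃ C : ℝ, ∀ B : ℝ, 1 ≤ B →
          {x | x ∈ E ∧ ∀ i, Height.mulHeight₁ (x i) ≤ B}.Finite ∧
          ({x | x ∈ E ∧ ∀ i, Height.mulHeight₁ (x i) ≤ B}.ncard : ℝ) ≤
            C * B ^ (2 * m) * Real.exp (-√(Real.log B))) ∧
        ∀ (A : Type) [CommRing A] [IsDomain A] [Algebra K A] [Algebra (MvPolynomial (Fin m) K) A]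
          [IsScalarTower K (MvPolynomial (Fin m) K) A] [Module.Finite (MvPolynomial (Fin m) K) A]
          [FaithfulSMul (MvPolynomial (Fin m) K) A] (b c : A), b ≠ 0 →
          Transcendental K (algebraMap A (FractionRing A) c / algebraMap A (FractionRing A) b) →
          (∃ C : ℝ, ∀ (x : Fin m → K) (L : Type) [Field L] [NumberField L] [Algebra K L]
            (φ : A →+* L), IsPoint x φ → φ b ≠ 0 →
              Height.logHeight₁ (φ c / φ b) ≤ C * Module.finrank K L * (height x + 1)) ∧
          ∃ h₀ : ℝ, ∀ x : Fin m → K, x ∉ E → h₀ ≤ height x →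
            ∀ (L : Type) [Field L] [NumberField L] [Algebra K L] (φ : A →+* L), IsPoint x φ →
              Module.finrank K L = Module.finrank (MvPolynomial (Fin m) K) A → φ b ≠ 0 →
              ∀ (d g : ℕ) (κ ρ : ℝ), 0 < g → 0 ≤ κ → 0 ≤ ρ →
                Height.logHeight₁ (φ c / φ b) ≤ ρ * height x →
                HoldsAt (c₁ d g κ ρ) (c₂ d g κ ρ) d g κ (φ c / φ b)) ∧
    (∀ d : ℕ, ∃ κ : ℝ, 0 ≤ κ ∧ ∀ (K : Type) [Field K] [NumberField K],
      Module.finrank ℚ K ≤ d → ∀ j : K, j ≠ 0 → j ≠ 1728 → ∃ a b : 𝓞 K,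
        4 * (a : K) ^ 3 + 27 * (b : K) ^ 2 ≠ 0 ∧ jinv (a : K) b = j ∧
        absH (a : K) + absH (b : K) ≤ κ * (1 + absH j)) := by
  classical
  refine ⟨?_, Pool.Agent.Y728.AK.exists_model⟩
  have hst : ∀ (d g : ℕ) (κ ρ : ℝ), ∃ (c₁ : ℝ) (c₂ : ℕ), 0 < c₁ ∧ (0 < g → 0 ≤ κ → 0 ≤ ρ →
      ∀ (M : Type) [Field M] [NumberField M] (j : M)
        (W : Finset (HeightOneSpectrum (𝓞 M))), (∀ w ∈ W, 1 < w.valuation M j) →
        Height.logHeight₁ j ≤ 2 * ρ * ∑ w ∈ W, Real.log (Ideal.absNorm w.asIdeal) →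
          HoldsAt c₁ c₂ d g κ j) := by
    intro d g κ ρ
    by_cases h : 0 < g ∧ 0 ≤ κ ∧ 0 ≤ ρ
    · obtain ⟨c₁, hc₁, c₂, h1⟩ := Pool.Agent.N751.LS.strong_of_poles d g h.1 κ (2 * ρ) h.2.1
        (by linarith [h.2.2])
      exact ⟨c₁, c₂, hc₁, fun _ _ _ M _ _ j W hW hj => h1 M j W hW hj⟩
    · exact ⟨1, 0, one_pos, fun h1 h2 h3 => absurd ⟨h1, h2, h3⟩ h⟩
  choose c₁ c₂ hc₁ hc using hst
  refine ⟨c₁, c₂, hc₁, ?_⟩
  intro K _ _ m hm
  obtain ⟨E1, E2, h1, h2, hcard⟩ := exists_exc K m hm
  refine ⟨{x | x ∈ E1 ∪ E2 ∨ ∃ i, flipI i x ∈ E1 ∪ E2}, hcard, ?_⟩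
  intro A _ _ _ _ _ _ _ b c hb hj
  refine ⟨?_, ?_⟩
  · obtain ⟨C1, hC10, hC1⟩ := ht_int (K := K) (m := m) (a := b) (Algebra.IsIntegral.isIntegral b)
    obtain ⟨C2, hC20, hC2⟩ := ht_int (K := K) (m := m) (a := c) (Algebra.IsIntegral.isIntegral c)
    refine ⟨(C1 + C2) * (m + 1), ?_⟩
    intro x L _ _ _ φ hφ hbx
    have e1 := hC1 x L φ hφ.2
    have e2 := hC2 x L φ hφ.2
    have e3 : Height.logHeight₁ (φ c / φ b) ≤
        Height.logHeight₁ (φ c) + Height.logHeight₁ (φ b) := by
      rw [div_eq_mul_inv]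
      refine (Height.logHeight₁_mul_le _ _).trans ?_
      rw [Height.logHeight₁_inv]
    have e4 : ∑ i, Height.logHeight₁ (x i) ≤ m * height x := by
      have : ∑ i, Height.logHeight₁ (x i) ≤ ∑ _i : Fin m, height x :=
        Finset.sum_le_sum fun i _ => le_htm x i
      rwa [Finset.sum_const, Finset.card_univ, Fintype.card_fin, nsmul_eq_mul] at this
    have e5 : 0 ≤ height x := (Height.zero_le_logHeight₁ (x ⟨0, hm⟩)).trans (le_htm x _)
    have e6 : ∑ i, Height.logHeight₁ (x i) + 1 ≤ (m + 1) * (height x + 1) := by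
      have : (0 : ℝ) ≤ m := Nat.cast_nonneg _
      nlinarith
    have e7 : (C1 + C2) * Module.finrank K L * (∑ i, Height.logHeight₁ (x i) + 1) ≤
        (C1 + C2) * Module.finrank K L * ((m + 1) * (height x + 1)) :=
      mul_le_mul_of_nonneg_left e6 (by positivity)
    linarith
  · obtain ⟨h0, hh⟩ := poles Pool.Agent.N348.SU.um h1 h2 hb hj
    refine ⟨h0, ?_⟩
    intro x hxE hx L _ _ _ φ hφ hfr hbx d g κ ρ hg hκ hρ hjρ
    have hxE' : (x ∉ E1 ∧ x ∉ E2) ∧ ∀ i, flipI i x ∉ E1 ∧ flipI i x ∉ E2 := by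
      refine ⟨⟨fun h => hxE (Or.inl (Or.inl h)), fun h => hxE (Or.inl (Or.inr h))⟩, fun i =>
        ⟨fun h => hxE (Or.inr ⟨i, Or.inl h⟩), fun h => hxE (Or.inr ⟨i, Or.inr h⟩)⟩⟩
    obtain ⟨V, hV1, hV2⟩ := hh x hxE'.1.1 hxE'.1.2 hxE'.2 hx L φ ⟨hφ.1, hfr, hφ.2⟩ hbx
    choose up hup1 hup2 using hV2
    refine hc d g κ ρ hg hκ hρ L _ (V.attach.image fun v => up v.1 v.2) ?_ ?_
    · intro w hw
      obtain ⟨v, hv, rfl⟩ := Finset.mem_image.1 hw
      exact hup2 v.1 v.2
    · have hinj : Set.InjOn (fun v : {v // v ∈ V} => up v.1 v.2)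
          (V.attach : Set {v // v ∈ V}) := by
        intro v hv v' hv' h
        have k1 := (absNorm_le (hup1 v.1 v.2)).1
        have k2 := (absNorm_le (hup1 v'.1 v'.2)).1
        have k3 : up v.1 v.2 = up v'.1 v'.2 := h
        rw [k3] at k1
        exact Subtype.ext (HeightOneSpectrum.ext (k1.trans k2.symm))
      rw [Finset.sum_image hinj]
      have hsum : ∑ v ∈ V, Real.log (Nv v) ≤
          ∑ v ∈ V.attach, Real.log (Ideal.absNorm (up v.1 v.2).asIdeal : ℝ) := by
        rw [← Finset.sum_attach]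
        refine Finset.sum_le_sum fun v _ => ?_
        have k3 : Ideal.absNorm v.1.asIdeal ≤ Ideal.absNorm (up v.1 v.2).asIdeal :=
          (absNorm_le (hup1 v.1 v.2)).2
        have k4 : 1 < Ideal.absNorm v.1.asIdeal := HeightOneSpectrum.one_lt_absNorm v.1
        refine Real.log_le_log ?_ ?_
        · show (0 : ℝ) < (Ideal.absNorm v.1.asIdeal : ℝ)
          exact_mod_cast (by omega : 0 < Ideal.absNorm v.1.asIdeal)
        · show (Ideal.absNorm v.1.asIdeal : ℝ) ≤ _
          exact_mod_cast k3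
      have k4 : ρ * height x ≤ ρ * (2 * ∑ v ∈ V, Real.log (Nv v)) := by
        refine mul_le_mul_of_nonneg_left ?_ hρ
        have : height x = htm x := rfl
        rw [this]
        linarith
      have k5 : 2 * ρ * ∑ v ∈ V, Real.log (Nv v) ≤
          2 * ρ * ∑ v ∈ V.attach, Real.log (Ideal.absNorm (up v.1 v.2).asIdeal : ℝ) :=
        mul_le_mul_of_nonneg_left hsum (by linarith)
      linarith

end Pool.Agent.Results.MP_f5471b_nt.AllFamiliesManyParameters
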