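import Mathlib
import Pool.Agent.J6H73.SB.Mem
import Pool.Agent.J6H73.SB.MemTot
import Pool.Agent.Y728.AK.JModel

/-!
# The strong Lang-Silverman alternative at almost all closed points of linear systems on curves of
# any genus, in families of elliptic curves over these curves

Let `K` be a number field and `C` a geometrically integral affine curve over `K` with a finite flat
morphism `X` of degree `N` to the affine line: the ring `A` of functions on `C` is free over `K[X]`
with a basis `e_1, …, e_N` which contains `1`. For `n ≥ 1` let `V_n` be the space of the functions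
`f = ∑ c_jk X ^ k e_j`, `k ≤ n`, of dimension `N (n + 1)`. The members of the linear system are the
points of the projective space of `V_n`. If the zero scheme of `f` is a single reduced closed point
(if `f` generates a maximal ideal), then this is a point of `C` over a field of large degree over
`K`, of degree about `N n`; for `C` the affine line and `e = 1` these are the algebraic numbers of
degree `n`.

There is ONE set `E` of members of `V_n`, of density zero (at most the proportion `C exp (-√T)` of the
members of absolute logarithmic height at most `T`, of which there are at least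
`c exp (N (n + 1) [K : ℚ] T)`), such that for ALL rational functions `J = F / G` on `C` with a pole at a
closed point of `C` of degree at most `2 n + 1`, for example the `j`-invariants of families of
elliptic curves over `C`, the following holds for all points `x` of `C` over number fields which are
members of `V_n` outside `E` of height at least `C₀(J)`: for all elliptic curves of invariant `J(x)`
over all number fields `L` of degree at most `d` containing `K(x)`, all forms `B` over `L` of their
`g`-th powers, all polarizations of `B` and all `P ∈ B(L)`, either `P` has order at most `c₂` modulo a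
proper abelian subvariety of degree at most `c₂` times that of `B`, or the canonical height of `P` is
at least `c₁` times the height of `B`. The constants `c₁ > 0` and `c₂` depend only on `N`, the degrees
of `F` and `G` (`IntDeg m`: a root of a monic polynomial over `K[X]` with coefficients of degree at
most `m`), `d`, `g` and `κ`, and not on the field `K`, the curve, its genus, `n` and `J`.

`y² = x³ + a x + b` is an elliptic curve of invariant `j` with `a`, `b` integral of height at
most `κ (1 + h(j))`.  A finite Galois extension `W` of `L` and a faithful representation `ρ` of its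
group by integral matrices of size `g` define an abelian variety `B` over `L`, the form of `E ^ g`
with `B(L) = {P ∈ E(W) ^ g | ρ(σ) σ(P) = P for all σ}` (`FixedPt ρ P`); for `g = 1` these are `E`
and all its quadratic twists.  A symmetric positive definite integral matrix `M` with
`ρ(σ)ᵀ M ρ(σ) = M` (`Polar ρ M`) is a polarization of `B` over `L`; the corresponding absolute
canonical height is `chatM M P / [W : ℚ]`.  `SubvarLe c ρ M P` is the first alternative: the columns of
the primitive integral matrix `β` of size `g × m`, `m < g`, span a sublattice stable under `ρ`, and so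
define an abelian subvariety over `L` of dimension `m`, its degree for the polarization is at most `c`
times that of `B`, and `n P` is in it for some positive `n ≤ c`.  `Pts W a b` is the group of points
over `W`, `chat P` the canonical height (`ChatLim`), `RamPrimes L T` says that for each prime `v` in `T`
there is `σ ≠ 1` in the inertia group, `logNorms T` is the sum of `log N v`, `v ∈ T`, and `absH` is the
absolute logarithmic height.

Proof. Let `P` be a pole of `J` of degree `δ ≤ 2 n + 1`. The values at `P` of the functions in `V_n` are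
an incomplete norm form of the residue field of `P` in at least `n + 1 > δ / 2` independent variables. Outside a
set of members of density zero (one set for all `P`, by a diagonal argument) the primes `w` of `K(x)`
at which `x` meets `P` satisfy `∑ log N w ≥ (δ - ε) h(f) - C`: the values of the norm form are rarely
divisible by the squares of primes of medium size, and rarely have a large powerful part composed of
small primes (`Pool.Agent.J6H73.SB`). So `J(x)` has many poles, and this gives the
alternative (`Pool.Agent.N751.LS.strong_of_poles`).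
-/

set_option autoImplicit false

namespace Pool.Agent.Results.MP_f5471b_nt.ClosedPointsOnCurves

open Pool.Agent.TH910.LS Pool.Agent.Y725.LS NumberField IsDedekindDomain Polynomial Module
open scoped LinearAlgebra.Projectivization

/-- the alternative, with the constants `c₁` and `c₂`, for all forms of dimension `g` of the powers
of the curve `y² = x³ + a x + b` over `L` that are split by `W` -/
def Alternative (c₁ : ℝ) (c₂ g : ℕ) {L : Type} [Field L] [NumberField L] (a b : 𝓞 L) (W : Type)
    [Field W] [NumberField W] [Algebra L W] [DecidableEq W] : Prop :=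
  ∀ (ρ : (W ≃ₐ[L] W) →* Matrix (Fin g) (Fin g) ℤ) (M : Matrix (Fin g) (Fin g) ℤ)
    (P : Fin g → Pts W a b) (T : Finset (HeightOneSpectrum (𝓞 W))),
    Faithful ρ → Polar ρ M → FixedPt ρ P → RamPrimes L T →
      SubvarLe c₂ ρ M P ∨
      (¬ IsOfFinAddOrder P ∧
        c₁ * (1 + absH (jinv (a : L) b) + logNorms T / Module.finrank ℚ W) ≤
          chatM M P / Module.finrank ℚ W)

/-- the alternative, with constants `c₁` and `c₂`, holds for all elliptic curves of invariant `j` over
the number field `L`, given by an integral equation `y² = x³ + a x + b` whose coefficients have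
height at most `κ (1 + h(j))`, and for all forms of dimension `g` of their powers -/
def HoldsAt (c₁ : ℝ) (c₂ g : ℕ) (κ : ℝ) {L : Type} [Field L] [NumberField L] (j : L) : Prop :=
  ∀ a b : 𝓞 L, 4 * (a : L) ^ 3 + 27 * (b : L) ^ 2 ≠ 0 →
    absH (a : L) + absH (b : L) ≤ κ * (1 + absH (jinv (a : L) b)) → jinv (a : L) b = j →
    ∀ (W : Type) [Field W] [NumberField W] [Algebra L W] [IsGalois L W] [DecidableEq W],
      ChatLim W a b ∧ Alternative c₁ c₂ g a b W

/-- the absolute logarithmic height of the member with the coordinates `P` -/
noncomputable def height {K : Type} [Field K] [NumberField K] {m : ℕ}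
    (P : ℙ K (Fin m → K)) : ℝ :=
  Height.logHeight P.rep / Module.finrank ℚ K

/-- the members of absolute logarithmic height at most `T` of a linear system of dimension `m` over
`K` -/
def Members (K : Type) [Field K] [NumberField K] (m : ℕ) (T : ℝ) : Set (ℙ K (Fin m → K)) :=
  {P | height P ≤ T}

section

variable {K A : Type} [Field K] [CommRing A] [Algebra K A] [Algebra K[X] A]

/-- the function `∑ c_jk X ^ k e_j`, `k ≤ n`, with the coordinates `P` (up to a factor) -/
noncomputable def func {N : ℕ} (e : Basis (Fin N) K[X] A) (n : ℕ)
    (P : ℙ K (Fin (N * (n + 1)) → K)) : A :=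
  ∑ i, P.rep i • ((X : K[X]) ^ ((finProdFinEquiv.symm i).2 : ℕ) • e (finProdFinEquiv.symm i).1)

/-- `F` is a root of a monic polynomial over `K[X]` whose coefficients have degree at most `m` -/
def DegLe (m : ℕ) (F : A) : Prop :=
  ∃ Q : K[X][X], Q.Monic ∧ (∀ i, (Q.coeff i).natDegree ≤ m) ∧ aeval F Q = 0

/-- `F / G` has a pole at a closed point of degree at most `δ` over `K`, at which `F` does not vanish -/
def HasPole (δ : ℕ) (F G : A) : Prop :=
  ∃ (L : Type) (_ : Field L) (_ : NumberField L) (_ : Algebra K L) (ψ : A →ₐ[K] L),
    Function.Surjective ψ ∧ finrank K L ≤ δ ∧ ψ G = 0 ∧ ψ F ≠ 0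

end

/-- **Theorem.** There are constants `c₁ > 0` and `c₂`, which are functions of `N`, `m`, `d`, `g`, `κ`, such
that for all number fields `K`, all geometrically integral affine curves over `K` with the ring of
functions `A`, free over `K[X]` with a basis `e_1, …, e_N` containing `1`, and all `n ≥ 1` there is a
set `E` of members of the linear system `V_n` such that (1) `E` has density zero among the members,
ordered by their height; (2) for all `F` and `G ≠ 0` in `A` of degree at most `m` over `K[X]`, such that
`F / G` has a pole at a closed point of degree at most `2 n + 1`, the alternative with the constants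
`c₁` and `c₂` holds for all elliptic curves of invariant `(F / G)(x)` over number fields of degree at
most `d` and all forms of their `g`-th powers, for all closed points `x` which are members
of `V_n` outside `E` of height at least `C₀(F, G)`: the points are homomorphisms `φ` from `A`
to number fields `L`, and the member `P` generates the kernel of `φ`. (3) All functions have some
degree `m` over `K[X]`. (4) Every `j ≠ 0, 1728` is the invariant of a curve with small coefficients,
as assumed in `HoldsAt`, with a `κ` depending only on the degree of the field. -/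
theorem result :
    (∃ (c₁ : ℕ → ℕ → ℕ → ℕ → ℝ → ℝ) (c₂ : ℕ → ℕ → ℕ → ℕ → ℝ → ℕ),
      (∀ N m d g κ, 0 < c₁ N m d g κ) ∧
      ∀ (K A : Type) [Field K] [NumberField K] [CommRing A] [IsDomain A] [Algebra K A]
        [Algebra K[X] A] [IsScalarTower K K[X] A],
        IsDomain (TensorProduct K (AlgebraicClosure K) A) →
        ∀ (N : ℕ) (e : Basis (Fin N) K[X] A), (∃ i, e i = 1) → ∀ n : ℕ, 1 ≤ n →
        ∃ E : Set (ℙ K (Fin (N * (n + 1)) → K)),
          (∀ T : ℝ, (Members K (N * (n + 1)) T).Finite) ∧
          (∃ c T₀ : ℝ, 0 < c ∧ ∀ T : ℝ, T₀ ≤ T →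
            c * Real.exp ((N * (n + 1) : ℕ) * Module.finrank ℚ K * T) ≤
              (Members K (N * (n + 1)) T).ncard) ∧
          (∃ C : ℝ, ∀ T : ℝ, 0 ≤ T → ((E ∩ Members K (N * (n + 1)) T).ncard : ℝ) ≤
            C * Real.exp (-√T) * (Members K (N * (n + 1)) T).ncard) ∧
          (∀ (m d g : ℕ) (κ : ℝ), 0 < g → 0 ≤ κ → ∀ F G : A, G ≠ 0 →
            DegLe (K := K) m F → DegLe (K := K) m G → HasPole (K := K) (2 * n + 1) F G → ∃ C₀ : ℝ,
              ∀ (L : Type) [Field L] [NumberField L] [Algebra K L] (φ : A →ₐ[K] L)
                (P : ℙ K (Fin (N * (n + 1)) → K)), Module.finrank ℚ L ≤ d →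
                RingHom.ker φ = Ideal.span {func e n P} → P ∉ E → C₀ ≤ height P →
                φ G ≠ 0 ∧ HoldsAt (c₁ N m d g κ) (c₂ N m d g κ) g κ (φ F / φ G)) ∧
          ∀ F : A, ∃ m, DegLe (K := K) m F) ∧
    (∀ d : ℕ, ∃ κ : ℝ, 0 ≤ κ ∧ ∀ (L : Type) [Field L] [NumberField L],
      Module.finrank ℚ L ≤ d → ∀ j : L, j ≠ 0 → j ≠ 1728 → ∃ a b : 𝓞 L,
        4 * (a : L) ^ 3 + 27 * (b : L) ^ 2 ≠ 0 ∧ jinv (a : L) b = j ∧
        absH (a : L) + absH (b : L) ≤ κ * (1 + absH j)) := by
  classical
  refine ⟨?_, Pool.Agent.Y728.AK.exists_model⟩
  refine ⟨fun N m d g κ => if h : 0 < g ∧ 0 ≤ κ then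
      (Pool.Agent.J6H73.SB.strong_members N m d g h.1 κ h.2).choose else 1,
    fun N m d g κ => if h : 0 < g ∧ 0 ≤ κ then
      (Pool.Agent.J6H73.SB.strong_members N m d g h.1 κ h.2).choose_spec.2.choose else 1, ?_, ?_⟩
  · intro N m d g κ
    dsimp only
    split_ifs with h
    · exact (Pool.Agent.J6H73.SB.strong_members N m d g h.1 κ h.2).choose_spec.1
    · exact one_pos
  intro K A _ _ _ _ _ _ _ hdom N e he n hn
  have hfinA : Module.Finite K[X] A := Module.Finite.of_basis e
  have hfaith : FaithfulSMul K[X] A := by
    obtain ⟨i, hi⟩ := id he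
    refine ⟨fun {p q} h => ?_⟩
    have h1 := h (e i)
    have h2 : (p - q) • e i = 0 := by rw [sub_smul, h1, sub_self]
    rcases e.smul_eq_zero.1 h2 with h3 | h3
    · exact sub_eq_zero.1 h3
    · exact absurd h3 (e.ne_zero i)
  obtain ⟨E, hE⟩ := Pool.Agent.J6H73.SB.exists_excC hdom e he n hn
  have hK : (1 : ℝ) ≤ Module.finrank ℚ K := by
    exact_mod_cast (Module.finrank_pos : 0 < Module.finrank ℚ K)
  have hK0 : (0 : ℝ) < Module.finrank ℚ K := by linarith
  have hN : 1 ≤ N := by
    obtain ⟨i, -⟩ := he
    exact Nat.one_le_iff_ne_zero.2 (by rintro rfl; exact i.elim0)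
  have hm2 : 2 ≤ N * (n + 1) := by nlinarith
  have hmem : ∀ T : ℝ, Members K (N * (n + 1)) T =
      {P : ℙ K (Fin (N * (n + 1)) → K) | Height.logHeight P.rep ≤ Module.finrank ℚ K * T} := by
    intro T
    ext P
    show Height.logHeight P.rep / Module.finrank ℚ K ≤ T ↔
      Height.logHeight P.rep ≤ Module.finrank ℚ K * T
    rw [div_le_iff₀ hK0, mul_comm T]
  -- all members
  obtain ⟨ν, C1, -, hC1⟩ := Pool.Agent.N752.CV.t2 Pool.Agent.N498.CV.t K (N * (n + 1)) 1 0
    one_ne_zero (MvPolynomial.isHomogeneous_one _ _)
  have hfin : ∀ T : ℝ, (Members K (N * (n + 1)) T).Finite := by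
    intro T
    refine (hC1 (Module.finrank ℚ K * max T 0) (by positivity)).1.subset ?_
    rw [hmem T]
    intro P hP
    have h1 : Height.logHeight P.rep ≤ Module.finrank ℚ K * T := hP
    exact h1.trans (mul_le_mul_of_nonneg_left (le_max_left _ _) hK0.le)
  obtain ⟨c, U₀, hc, htot⟩ := Pool.Agent.J6H73.SB.tot K (N * (n + 1)) hm2
  have hlow : ∀ T : ℝ, U₀ ≤ Module.finrank ℚ K * T →
      c * Real.exp ((N * (n + 1) : ℕ) * Module.finrank ℚ K * T) ≤
        (Members K (N * (n + 1)) T).ncard := by
    intro T hT
    have h1 := htot _ hT (by rw [← hmem T]; exact hfin T)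
    rw [hmem T, mul_assoc]
    exact h1
  obtain ⟨CE, hCE⟩ := hE.count
  have hup : ∀ T : ℝ, 0 ≤ T → ((E ∩ Members K (N * (n + 1)) T).ncard : ℝ) ≤
      max CE 0 * Real.exp ((N * (n + 1) : ℕ) * Module.finrank ℚ K * T) * Real.exp (-√T) := by
    intro T hT
    have h1 := (hCE (Module.finrank ℚ K * T) (by positivity)).2
    have h2 : E ∩ Members K (N * (n + 1)) T =
        {P | P ∈ E ∧ Height.logHeight P.rep ≤ Module.finrank ℚ K * T} := by
      rw [hmem T]; rfl
    rw [h2]
    refine h1.trans ?_
    rw [mul_assoc (max CE 0), ← Real.exp_add]
    refine (mul_le_mul_of_nonneg_right (le_max_left CE 0) (Real.exp_pos _).le).trans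
      (mul_le_mul_of_nonneg_left (Real.exp_le_exp.2 ?_) (le_max_right _ _))
    have h3 : √T ≤ √(Module.finrank ℚ K * T) :=
      Real.sqrt_le_sqrt (le_mul_of_one_le_left hT hK)
    have h4 : ((N * (n + 1) : ℕ) : ℝ) * (Module.finrank ℚ K * T) =
        (N * (n + 1) : ℕ) * Module.finrank ℚ K * T := by ring
    rw [h4]
    linarith
  refine ⟨E, hfin, ⟨c, max U₀ 0, hc, fun T hT => hlow T ?_⟩, ?_, ?_, ?_⟩
  · have h1 : 0 ≤ T := (le_max_right _ _).trans hT
    have h2 : U₀ ≤ T := (le_max_left _ _).trans hT
    exact h2.trans (le_mul_of_one_le_left h1 hK)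
  · set T₁ : ℝ := max U₀ 0 with hT₁
    have hT₁0 : 0 ≤ T₁ := le_max_right _ _
    set D : ℝ := max CE 0 * Real.exp ((N * (n + 1) : ℕ) * Module.finrank ℚ K * T₁) with hD
    have hD0 : 0 ≤ D := by positivity
    refine ⟨max (max CE 0 / c) D, fun T hT => ?_⟩
    rcases le_or_gt T₁ T with hle | hlt
    · have h1 := hlow T (((le_max_left _ _).trans hle).trans (le_mul_of_one_le_left hT hK))
      calc ((E ∩ Members K (N * (n + 1)) T).ncard : ℝ) ≤ _ := hup T hT
        _ = max CE 0 / c * Real.exp (-√T) *
            (c * Real.exp ((N * (n + 1) : ℕ) * Module.finrank ℚ K * T)) := by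
            field_simp
        _ ≤ max CE 0 / c * Real.exp (-√T) * (Members K (N * (n + 1)) T).ncard :=
            mul_le_mul_of_nonneg_left h1 (by positivity)
        _ ≤ _ := by
            gcongr
            exact le_max_left _ _
    · rcases Set.eq_empty_or_nonempty (Members K (N * (n + 1)) T) with he | hne
      · rw [he]; simp
      · have h1 : (1 : ℝ) ≤ (Members K (N * (n + 1)) T).ncard := by
          exact_mod_cast (Set.ncard_pos (hfin T)).2 hne
        calc ((E ∩ Members K (N * (n + 1)) T).ncard : ℝ) ≤ _ := hup T hT
          _ ≤ D * Real.exp (-√T) := by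
              rw [hD]
              gcongr
          _ = D * Real.exp (-√T) * 1 := by ring
          _ ≤ D * Real.exp (-√T) * (Members K (N * (n + 1)) T).ncard :=
              mul_le_mul_of_nonneg_left h1 (by positivity)
          _ ≤ _ := by
              gcongr
              exact le_max_right _ _
  · intro m d g κ hg hκ F G hG hF1 hG1 hpole
    have hgk : 0 < g ∧ 0 ≤ κ := ⟨hg, hκ⟩
    obtain ⟨C₀, hC₀⟩ := (Pool.Agent.J6H73.SB.strong_members N m d g hgk.1 κ
      hgk.2).choose_spec.2.choose_spec K A e n E hE F G hG hF1 hG1 hpole
    simp only [dif_pos hgk]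
    refine ⟨max C₀ 0, fun L _ _ _ φ P hd hker hP hht => ?_⟩
    -- the residue field
    haveI hfd : FiniteDimensional K L := Module.Finite.of_restrictScalars_finite ℚ K L
    haveI halg : Algebra.IsAlgebraic K L := Algebra.IsAlgebraic.of_finite K L
    let M : IntermediateField K L :=
      Subalgebra.toIntermediateField' φ.range (Subalgebra.isField_of_algebraic φ.range)
    have hM : ∀ a : A, φ a ∈ M := fun a => ⟨a, rfl⟩
    let φ' : A →ₐ[K] M := φ.codRestrict M.toSubalgebra hM
    have hφ' : ∀ a : A, algebraMap M L (φ' a) = φ a := fun a => rfl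
    have hsurj : Function.Surjective φ' := by
      rintro ⟨y, a, ha⟩
      exact ⟨a, Subtype.ext ha⟩
    have hker' : RingHom.ker φ' = Ideal.span {func e n P} := by
      rw [← hker]
      ext a
      rw [RingHom.mem_ker, RingHom.mem_ker, ← hφ' a]
      exact (map_eq_zero_iff _ (algebraMap M L).injective).symm
    have hht' : C₀ ≤ Height.logHeight P.rep := by
      have h1 : C₀ ≤ height P := (le_max_left _ _).trans hht
      have h2 : 0 ≤ height P := (le_max_right _ _).trans hht
      have h3 : Height.logHeight P.rep = height P * Module.finrank ℚ K := by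
        unfold height
        field_simp
      rw [h3]
      nlinarith
    obtain ⟨hG', hS⟩ := hC₀ M φ' P hP hsurj hker' hht'
    refine ⟨?_, ?_⟩
    · rw [← hφ' G]
      exact (_root_.map_ne_zero _).2 hG'
    · intro a b hab hsm hj W _ _ _ _ _
      exact hS L hd a b hab hsm (by rw [hj, ← hφ' F, ← hφ' G, map_div₀]) W
  · intro F
    have hint : IsIntegral K[X] F := Algebra.IsIntegral.isIntegral F
    refine ⟨(Finset.range ((minpoly K[X] F).natDegree + 1)).sup
      fun i => ((minpoly K[X] F).coeff i).natDegree, minpoly K[X] F, minpoly.monic hint,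
      fun i => ?_, minpoly.aeval _ _⟩
    by_cases hi : i ≤ (minpoly K[X] F).natDegree
    · exact Finset.le_sup (f := fun i => ((minpoly K[X] F).coeff i).natDegree)
        (Finset.mem_range.2 (by omega))
    · rw [coeff_eq_zero_of_natDegree_lt (by omega), natDegree_zero]
      exact Nat.zero_le _

end Pool.Agent.Results.MP_f5471b_nt.ClosedPointsOnCurves
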