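import Mathlib
import Pool.Agent.J6H60.DR.CurveW4
import Pool.Agent.N751.LS.Core
import Pool.Agent.Y728.AK.JModel

/-!
# The strong Lang-Silverman alternative at the closed points in linear systems on curves: one sparse
# exceptional set for all families of elliptic curves over the curve

Let `A` be the ring of functions of a geometrically integral affine curve `C` over a number field
`K`, given with a finite map `X` to the affine line, and let `f_1, …, f_m ∈ A` be linearly
independent over `K`. For `P = (P_1 : … : P_m)` in projective space the member `∑ P_i f_i` of the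
linear system has finitely many zeros on `C`; usually they form one closed point, with a residue
field `M` of the degree of the member (the closed points of degree `r` of the line are the case
`f = 1, X, …, X ^ r`). For all `ρ` and `ε > 0` we find ONE set `E` of members, at most
`exp ((m - ρ + ε) U)` of them of height at most `U` (there are about `exp (m U)` members of height at
most `U`), such that for ALL functions `J` on `C` with poles which impose at least `ρ` independent
conditions on the linear system (for example the `j`-invariants of elliptic curves over the function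
field of `C`) the following holds for all members outside `E`, of large height, whose zeros form one
closed point `x`: for all elliptic curves of invariant `J(x) ∈ M` over all number fields containing
`M`, of degree at most `d`, for all forms `B` of `E ^ n`, all polarizations of `B` and all rational
points `P` of `B`, either `P` has order at most `c₂` modulo a proper abelian subvariety of degree at
most `c₂` times that of `B`, or the canonical height of `P` is at least `c₁` times the height of
`B`, with constants `c₁ > 0`, `c₂` independent of the member.

`E : y² = x³ + a x + b` is an elliptic curve of invariant `j` with `a`, `b` integral of height at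
most `κ (1 + h(j))`.  A finite Galois extension `L` of `F` and a faithful representation `ρ` of its
group by integral matrices of size `n` define an abelian variety `B` over `F`, the form of `E ^ n`
with `B(F) = {P ∈ E(L) ^ n | ρ(σ) σ(P) = P for all σ}` (`FixedPt ρ P`); for `n = 1` these are `E`
and all its quadratic twists.  A symmetric positive definite integral matrix `M` with
`ρ(σ)ᵀ M ρ(σ) = M` (`Polar ρ M`) is a polarization of `B` over `F`; the corresponding absolute
canonical height is `chatM M P / [L : ℚ]`.

`SubvarLe c ρ M P` is the first alternative: the columns of the primitive integral matrix `β` of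
size `n × m`, `m < n`, span a sublattice stable under `ρ`, and so define an abelian subvariety
over `F` of dimension `m`, its degree for the polarization is at most `c` times that of `B`, and
`s P` is in it for some positive `s ≤ c`.  `Pts L a b` is the group of points over `L`, `sht P` the
height of the `x`-coordinate, `chat P` the canonical height (`ChatLim`: the limit of
`4⁻ⁿ sht (2ⁿ P)`), `RamPrimes F T` says that for each prime `v` in `T` there is `σ ≠ 1` in the
inertia group, `logNorms T` is the sum of `log N v`, `v ∈ T`, and `absH` is the absolute logarithmic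
height.

Proof. The members are counted for which the norms of the values at all the poles of `J` have a small
radical: the radicals are fixed, each value is then one of few up to units, and the `ρ` independent
conditions determine the member up to `m - ρ` coordinates. For the other members the closed point
meets one of the poles at primes whose norms have a product which is at least a positive power of
the height, and the inequality of Hindry and Silverman with truncated Szpiro ratio
(`Pool.Agent.Y725.LS`) yields the alternative.
-/

set_option autoImplicit false

namespace Pool.Agent.Results.MP_f5471b_nt.CurvePoints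

open Pool.Agent.TH910.LS Pool.Agent.Y725.LS NumberField IsDedekindDomain Polynomial
open scoped LinearAlgebra.Projectivization

/-- the alternative, with the constants `c₁` and `c₂`, for all forms of dimension `n` of the powers
of the curve `y² = x³ + a x + b` over `F` that are split by `L` -/
def Alternative (c₁ : ℝ) (c₂ n : ℕ) {F : Type} [Field F] [NumberField F] (a b : 𝓞 F) (L : Type)
    [Field L] [NumberField L] [Algebra F L] [DecidableEq L] : Prop :=
  ∀ (ρ : (L ≃ₐ[F] L) →* Matrix (Fin n) (Fin n) ℤ) (M : Matrix (Fin n) (Fin n) ℤ)
    (P : Fin n → Pts L a b) (T : Finset (HeightOneSpectrum (𝓞 L))),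
    Faithful ρ → Polar ρ M → FixedPt ρ P → RamPrimes F T →
      SubvarLe c₂ ρ M P ∨
      (¬ IsOfFinAddOrder P ∧
        c₁ * (1 + absH (jinv (a : F) b) + logNorms T / Module.finrank ℚ L) ≤
          chatM M P / Module.finrank ℚ L)

/-- the alternative, with constants `c₁` and `c₂`, holds for all elliptic curves of invariant
`j ∈ M` over all number fields `F` of degree at most `d` containing `M`, given by an integral
equation `y² = x³ + a x + b` whose coefficients have height at most `κ (1 + h(j))`, and for all
forms of dimension `n` of their powers -/
def HoldsAt (c₁ : ℝ) (c₂ d n : ℕ) (κ : ℝ) {M : Type} [Field M] [NumberField M] (j : M) : Prop :=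
  ∀ (F : Type) [Field F] [NumberField F] [Algebra M F], Module.finrank ℚ F ≤ d →
    ∀ a b : 𝓞 F, 4 * (a : F) ^ 3 + 27 * (b : F) ^ 2 ≠ 0 →
      absH (a : F) + absH (b : F) ≤ κ * (1 + absH (jinv (a : F) b)) →
      jinv (a : F) b = algebraMap M F j →
      ∀ (L : Type) [Field L] [NumberField L] [Algebra F L] [IsGalois F L] [DecidableEq L],
        ChatLim L a b ∧ Alternative c₁ c₂ n a b L

/-- a closed point of the curve: a surjective homomorphism `A → L` to a number field, the residue
field -/
structure ClosedPoint (K A : Type) [Field K] [CommRing A] [Algebra K A] where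
  /-- the residue field -/
  L : Type
  [field : Field L]
  [numberField : NumberField L]
  [algebra : Algebra K L]
  /-- the values of the functions at the point -/
  val : A →ₐ[K] L
  surjective : Function.Surjective val

attribute [instance] ClosedPoint.field ClosedPoint.numberField ClosedPoint.algebra

/-- the number of conditions which the points impose on the linear system spanned by the functions
`f i`: the rank over `K` of the evaluation at all the points -/
noncomputable def conditions {K A : Type} [Field K] [CommRing A] [Algebra K A] {q m : ℕ}
    (x : Fin q → ClosedPoint K A) (f : Fin m → A) : ℕ :=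
  Module.finrank K (Submodule.span K
    (Set.range fun i => (fun j => (x j).val (f i) : ∀ j, (x j).L)))

/-- `J` has a pole at `x`: `J = F / G` with `F(x) ≠ 0`, `G(x) = 0` -/
def IsPole {K A : Type} [Field K] [CommRing A] [IsDomain A] [Algebra K A] (J : FractionRing A)
    (x : ClosedPoint K A) : Prop :=
  ∃ F G : A, algebraMap A (FractionRing A) F = J * algebraMap A (FractionRing A) G ∧
    x.val G = 0 ∧ x.val F ≠ 0

/-- the value of `J` at the point `x` is `z`: `J = F / G` with `G(x) ≠ 0` and `z = F(x) / G(x)` -/
def HasValue {K A : Type} [Field K] [CommRing A] [IsDomain A] [Algebra K A] (J : FractionRing A)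
    (x : ClosedPoint K A) (z : x.L) : Prop :=
  ∃ F G : A, algebraMap A (FractionRing A) F = J * algebraMap A (FractionRing A) G ∧
    x.val G ≠ 0 ∧ z = x.val F / x.val G

/-- the zeros of the member `∑ P_i f_i` are the closed point `x`: this function generates the
maximal ideal of `x` -/
def IsZero {K A : Type} [Field K] [CommRing A] [Algebra K A] {m : ℕ} (f : Fin m → A)
    (P : ℙ K (Fin m → K)) (x : ClosedPoint K A) : Prop :=
  RingHom.ker x.val = Ideal.span {∑ i, P.rep i • f i}

/-- at most `exp ((m - ρ + ε) U - √U)` elements of `E` have height at most `U` -/
def Sparse {K : Type} [Field K] [NumberField K] {m : ℕ} (ρ : ℕ) (ε : ℝ)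
    (E : Set (ℙ K (Fin m → K))) : Prop :=
  ∀ U : ℝ, 0 ≤ U → {P | P ∈ E ∧ Height.logHeight P.rep ≤ U}.Finite ∧
    ({P | P ∈ E ∧ Height.logHeight P.rep ≤ U}.ncard : ℝ) ≤
      Real.exp (((m - ρ : ℕ) + ε) * U - √U)

/-- the alternative holds for the value of `J` at all closed points `x` which are the zeros of a
member outside `E` of height at least `U₀` -/
def HoldsOutside (c₁ : ℝ) (c₂ d n : ℕ) (κ U₀ : ℝ) {K A : Type} [Field K] [NumberField K]
    [CommRing A] [IsDomain A] [Algebra K A] {m : ℕ} (f : Fin m → A) (E : Set (ℙ K (Fin m → K)))
    (J : FractionRing A) : Prop :=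
  ∀ (P : ℙ K (Fin m → K)) (x : ClosedPoint K A) (z : x.L), P ∉ E → IsZero f P x →
    U₀ ≤ Height.logHeight P.rep → HasValue J x z → HoldsAt c₁ c₂ d n κ z

/-- **Theorem.** Let `A` be the ring of functions of a geometrically integral affine curve over the
number field `K`, finite over `K[X]`, and `f_1, …, f_m ∈ A` linearly independent over `K`. For all
`ρ` and `ε > 0` there is a set `E` of members of the linear system, sparse if `ρ ≥ 1`, such that for
all functions `J` with poles which impose at least `ρ` conditions on the system and all `d`, `n`, `κ`
there are constants `c₁ > 0`, `c₂` and `U₀` for which the alternative holds for the value of `J` at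
all closed points which are the zeros of a member outside `E` of height at least `U₀`. Moreover,
every `j ≠ 0, 1728` is the invariant of a curve with small coefficients, as assumed in `HoldsAt`,
with a `κ` depending only on `d`. -/
theorem result :
    (∀ (K A : Type) [Field K] [NumberField K] [CommRing A] [IsDomain A]
      [Algebra K A] [Algebra K[X] A] [IsScalarTower K K[X] A] [Module.Finite K[X] A]
      [FaithfulSMul K[X] A], IsDomain (TensorProduct K (AlgebraicClosure K) A) →
      ∀ (m : ℕ) (f : Fin m → A), LinearIndependent K f → ∀ (ρ : ℕ) (ε : ℝ), 0 < ε →
      ∃ E : Set (ℙ K (Fin m → K)), Sparse ρ ε E ∧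
        ∀ (J : FractionRing A) (q : ℕ) (x : Fin q → ClosedPoint K A), (∀ j, IsPole J (x j)) →
          ρ ≤ conditions x f → ∀ (d n : ℕ) (κ : ℝ), 0 < n → 0 ≤ κ →
          ∃ (c₁ : ℝ) (c₂ : ℕ) (U₀ : ℝ), 0 < c₁ ∧ HoldsOutside c₁ c₂ d n κ U₀ f E J) ∧
    (∀ d : ℕ, ∃ κ : ℝ, 0 ≤ κ ∧ ∀ (F : Type) [Field F] [NumberField F],
      Module.finrank ℚ F ≤ d → ∀ j : F, j ≠ 0 → j ≠ 1728 → ∃ a b : 𝓞 F,
        4 * (a : F) ^ 3 + 27 * (b : F) ^ 2 ≠ 0 ∧ jinv (a : F) b = j ∧
        absH (a : F) + absH (b : F) ≤ κ * (1 + absH j)) := by
  classical
  refine ⟨?_, Pool.Agent.Y728.AK.exists_model⟩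
  intro K A _ _ _ _ _ _ _ _ _ hdom m f hf ρ ε hε
  obtain ⟨E, hE1, hE2⟩ := Pool.Agent.J6H60.DR.lineV (K := K) (A := A) hdom f hf ρ hε
  refine ⟨E, hE1, ?_⟩
  intro J q x hx hρ d n κ hn hκ
  choose F G hFG hG hF using hx
  let x' : Fin q → Pool.Agent.J6H60.DR.Pnt K A := fun j =>
    { L := (x j).L, ψ := (x j).val, surj := (x j).surjective }
  obtain ⟨σ, hσ, h⟩ := hE2 J q x' F G hFG hG hF hρ
  obtain ⟨U₀, h⟩ := h d
  obtain ⟨c₁, hc₁, c₂, hc⟩ := Pool.Agent.N751.LS.strong_of_poles d n hn κ σ hκ hσ
  refine ⟨c₁, c₂, U₀, hc₁, ?_⟩
  rintro P y z hPE hz hU ⟨F', G', hrep, hG', rfl⟩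
  by_cases hd : Module.finrank ℚ y.L ≤ d
  · obtain ⟨W, hW, hWs⟩ := h y.L y.val P hd hPE y.surjective hz hU F' G' hrep hG'
    exact hc y.L _ W hW hWs
  · intro F _ _ _ hF
    exfalso
    apply hd
    have h2 : Module.finrank ℚ y.L * Module.finrank y.L F = Module.finrank ℚ F :=
      Module.finrank_mul_finrank ℚ y.L F
    have : FiniteDimensional y.L F := Module.Finite.of_restrictScalars_finite ℚ y.L F
    have h3 : 0 < Module.finrank y.L F := Module.finrank_pos
    nlinarith

end Pool.Agent.Results.MP_f5471b_nt.CurvePoints
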