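import Mathlib
import Pool.Agent.J6H60.DR.LineK3
import Pool.Agent.N751.LS.Core
import Pool.Agent.N31.FR.Tot

/-!
# The strong Lang-Silverman alternative at the points of degree `r`: one sparse exceptional set for
# all one-parameter families of elliptic curves over `K̄(t)`

Let `K` be a number field and `r ≥ 1`. The elements `x` of `K̄` of degree `r` over `K` are ordered by
the height relative to `K(x)`; at least `c exp ((r + 1) U)` minimal polynomials belong to `x` of
height at most `U`. For every `D₀` with `1 ≤ D₀ ≤ r + 1` and every `ε > 0` we find ONE set `E` of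
minimal polynomials, with at most `exp ((r + 1 - D₀ + ε) U)` elements of height at most `U` (so at
most `exp (ε U)` if `D₀ = r + 1`), such that the following holds for ALL finite extensions `k` of `K`
and ALL rational functions `J = A / B` over `k` with at least `D₀` different poles on the
projective line over the algebraic closure, for example the `j`-invariants of elliptic curves over
`K̄(t)`: for all `x` of degree `r` over `K` and over `k` with minimal polynomial not in `E` and of
large height, for all elliptic curves `E` of invariant `J(x) ∈ k(x)` over all number fields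
containing `k(x)`, of degree at most `d`, for all forms `A` of `E ^ g`, all polarizations of `A` and
all rational points `P` of `A`, either `P` has order at most `c₂` modulo a proper abelian subvariety
of degree at most `c₂` times that of `A`, or the canonical height of `P` is at least `c₁` times the
height of `A`. The constants `c₁ > 0`, `c₂` depend only on the degree of `J` and on `d`, `g`, `ε`
(and `κ`, see below), not on `K`, `r`, `k`, `J`. In particular torsion is bounded.

`E : y² = x³ + a x + b` is an elliptic curve of invariant `j` with `a`, `b` integral of height at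
most `κ (1 + h(j))`.  A finite Galois extension `L` of `F` and a faithful representation `ρ` of its
group by integral matrices of size `g` define an abelian variety `A` over `F`, the form of `E ^ g`
with `A(F) = {P ∈ E(L) ^ g | ρ(σ) σ(P) = P for all σ}` (`FixedPt ρ P`); for `g = 1` these are `E`
and all its quadratic twists.  A symmetric positive definite integral matrix `M` with
`ρ(σ)ᵀ M ρ(σ) = M` (`Polar ρ M`) is a polarization of `A` over `F`; the corresponding absolute
canonical height is `chatM M P / [L : ℚ]`.

`SubvarLe c ρ M P` is the first alternative: the columns of the primitive integral matrix `β` of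
size `g × m`, `m < g`, span a sublattice stable under `ρ`, and so define an abelian subvariety
`B` over `F` of dimension `m`, its degree for the polarization is at most `c` times that of `A`, and
`n P` is in `B` for some positive `n ≤ c`.  `Pts L a b` is the group of points over `L`, `sht P` the
height of the `x`-coordinate, `chat P` the canonical height (`ChatLim`: the limit of
`4⁻ⁿ sht (2ⁿ P)`), `RamPrimes F T` says that for each prime `v` in `T` there is `σ ≠ 1` in the
inertia group, `logNorms T` is the sum of `log N v`, `v ∈ T`, and `absH` is the absolute logarithmic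
height.

Proof. The primitive vectors `c` of the coefficients of the minimal polynomials are counted for which
all the norm forms which belong to the poles of `J` have a small radical: the radicals are fixed,
each of these norm forms is then one of few (`S`-units up to bounded exponents, with `S` the few
primes), and `D` independent linear forms determine `c` up to `r + 1 - D` coordinates. So for the
other `x` the truncated counting function of one of the poles is at least a positive proportion of
the height, and the inequality of Hindry and Silverman with truncated Szpiro ratio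
(`Pool.Agent.Y725.LS`) yields the alternative.
-/

set_option autoImplicit false

namespace Pool.Agent.Results.MP_f5471b_nt.DegreeRPoints

open Pool.Agent.TH910.LS Pool.Agent.Y725.LS NumberField IsDedekindDomain Polynomial

/-- the alternative, with the constants `c₁` and `c₂`, for all forms of dimension `g` of the powers
of the curve `y² = x³ + a x + b` over `F` that are split by `L` -/
def Alternative (c₁ : ℝ) (c₂ g : ℕ) {F : Type} [Field F] [NumberField F] (a b : 𝓞 F) (L : Type)
    [Field L] [NumberField L] [Algebra F L] [DecidableEq L] : Prop :=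
  ∀ (ρ : (L ≃ₐ[F] L) →* Matrix (Fin g) (Fin g) ℤ) (M : Matrix (Fin g) (Fin g) ℤ)
    (P : Fin g → Pts L a b) (T : Finset (HeightOneSpectrum (𝓞 L))),
    Faithful ρ → Polar ρ M → FixedPt ρ P → RamPrimes F T →
      SubvarLe c₂ ρ M P ∨
      (¬ IsOfFinAddOrder P ∧
        c₁ * (1 + absH (jinv (a : F) b) + logNorms T / Module.finrank ℚ L) ≤
          chatM M P / Module.finrank ℚ L)

/-- the alternative, with constants `c₁` and `c₂`, holds for all elliptic curves of invariant
`j ∈ M` over all number fields `F` of degree at most `d` containing `M`, given by an integral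
equation `y² = x³ + a x + b` whose coefficients have height at most `κ (1 + h(j))`, and for all
forms of dimension `g` of their powers -/
def HoldsAt (c₁ : ℝ) (c₂ d g : ℕ) (κ : ℝ) {M : Type} [Field M] [NumberField M] (j : M) : Prop :=
  ∀ (F : Type) [Field F] [NumberField F] [Algebra M F], Module.finrank ℚ F ≤ d →
    ∀ a b : 𝓞 F, 4 * (a : F) ^ 3 + 27 * (b : F) ^ 2 ≠ 0 →
      absH (a : F) + absH (b : F) ≤ κ * (1 + absH (jinv (a : F) b)) →
      jinv (a : F) b = algebraMap M F j →
      ∀ (L : Type) [Field L] [NumberField L] [Algebra F L] [IsGalois F L] [DecidableEq L],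
        ChatLim L a b ∧ Alternative c₁ c₂ g a b L

/-- `p` is the minimal polynomial over `K` of an element `x` of degree `r` over `K`, `M = K(x)`,
whose logarithmic height relative to `M` (Mathlib's height, `[M : ℚ]` times the absolute height) is
at most `U` -/
def AtHeight {K : Type} [Field K] [NumberField K] (r : ℕ) (U : ℝ) (p : K[X]) : Prop :=
  ∃ (M : Type) (_ : Field M) (_ : NumberField M) (_ : Algebra K M) (x : M),
    Module.finrank K M = r ∧ (minpoly K x).natDegree = r ∧ minpoly K x = p ∧
      Height.logHeight₁ x ≤ U

/-- the number of the different poles on the projective line over the algebraic closure of the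
function `A / B` (in lowest terms): the roots of `B`, and infinity if `deg B < deg A` -/
noncomputable def poleCount {k : Type} [Field k] (A B : k[X]) : ℕ :=
  {z : AlgebraicClosure k | aeval z B = 0}.ncard + if B.natDegree < A.natDegree then 1 else 0

/-- at least `c exp ((r + 1) U)` minimal polynomials over `K` belong to elements of degree `r` and
height at most `U`, for all large `U` -/
def ManyPoints (K : Type) [Field K] [NumberField K] (r : ℕ) : Prop :=
  ∃ c U₀ : ℝ, 0 < c ∧ ∀ U : ℝ, U₀ ≤ U → ∃ T : Finset K[X], (∀ p ∈ T, AtHeight r U p) ∧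
    c * Real.exp ((r + 1) * U) ≤ T.card

/-- at most `exp ((r + 1 - D₀ + ε) U - √U)` elements of `E` are minimal polynomials of elements of
degree `r` and height at most `U` -/
def Sparse {K : Type} [Field K] [NumberField K] (r D₀ : ℕ) (ε : ℝ) (E : Set K[X]) : Prop :=
  ∀ U : ℝ, 0 ≤ U → {p | p ∈ E ∧ AtHeight r U p}.Finite ∧
    ({p | p ∈ E ∧ AtHeight r U p}.ncard : ℝ) ≤ Real.exp (((r : ℝ) + 1 - D₀ + ε) * U - √U)

/-- for all finite extensions `k` of `K` (in the algebraic closure) and all `J = A / B` over `k` of
degree `N` with at least `D₀` different poles: the alternative holds for the value `J(x)`, with the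
constants `c₁(N, d, g, κ)` and `c₂(N, d, g, κ)`, for all `x` of degree `r` over `k` and over `K` of
height at least `U₀(k, J, d, g, κ)` whose minimal polynomial over `K` is not in `E` -/
def HoldsOutside (c₁ : ℕ → ℕ → ℕ → ℝ → ℝ) (c₂ : ℕ → ℕ → ℕ → ℝ → ℕ) {K : Type} [Field K]
    [NumberField K] (r D₀ : ℕ) (E : Set K[X]) : Prop :=
  ∀ (k : IntermediateField K (AlgebraicClosure K)) [NumberField k] (A B : k[X])
    (N d g : ℕ) (κ : ℝ), IsCoprime A B → B ≠ 0 → max A.natDegree B.natDegree = N →
    D₀ ≤ poleCount A B → 0 < g → 0 ≤ κ → ∃ U₀ : ℝ,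
    ∀ (M : Type) [Field M] [NumberField M] [Algebra K M] [Algebra k M]
      [IsScalarTower K k M] (x : M), Module.finrank k M = r →
      (minpoly k x).natDegree = r → (minpoly K x).natDegree = r → minpoly K x ∉ E →
      U₀ ≤ Height.logHeight₁ x →
      aeval x B ≠ 0 ∧ HoldsAt (c₁ N d g κ) (c₂ N d g κ) d g κ (aeval x A / aeval x B)

/-- every `j ≠ 0, 1728` is the invariant of a curve with small coefficients, as assumed in
`HoldsAt`, with a `κ` depending only on `d` -/
def SmallModels : Prop :=
  ∀ d : ℕ, ∃ κ : ℝ, 0 ≤ κ ∧ ∀ (F : Type) [Field F] [NumberField F],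
    Module.finrank ℚ F ≤ d → ∀ j : F, j ≠ 0 → j ≠ 1728 → ∃ a b : 𝓞 F,
      4 * (a : F) ^ 3 + 27 * (b : F) ^ 2 ≠ 0 ∧ jinv (a : F) b = j ∧
      absH (a : F) + absH (b : F) ≤ κ * (1 + absH j)

/-- **Theorem.** There are constants `c₁(N, d, g, κ, ε) > 0` and `c₂(N, d, g, κ, ε)` such that for
all number fields `K` and all `r ≥ 1` there are many elements of degree `r`, but for all
`1 ≤ D₀ ≤ r + 1` and `ε > 0` there is a sparse set `E` of polynomials such that for all functions
`J` over all finite extensions of `K` of degree `N` with at least `D₀` different poles the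
alternative with these constants holds for the value `J(x)` for all `x` of degree `r` outside `E`
of large height. -/
theorem result :
    (∃ (c₁ : ℝ → ℕ → ℕ → ℕ → ℝ → ℝ) (c₂ : ℝ → ℕ → ℕ → ℕ → ℝ → ℕ),
      (∀ ε N d g κ, 0 < c₁ ε N d g κ) ∧
      ∀ (K : Type) [Field K] [NumberField K] (r : ℕ), 1 ≤ r → ManyPoints K r ∧
        ∀ (D₀ : ℕ) (ε : ℝ), 1 ≤ D₀ → D₀ ≤ r + 1 → 0 < ε → ∃ E : Set K[X],
          Sparse r D₀ ε E ∧ HoldsOutside (c₁ ε) (c₂ ε) r D₀ E) ∧
    SmallModels := by
  classical
  refine ⟨?_, Pool.Agent.Y728.AK.exists_model⟩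
  have hc : ∀ (ε : ℝ) (N d g : ℕ) (κ : ℝ), ∃ (c₁ : ℝ) (c₂ : ℕ), 0 < c₁ ∧
      (0 < g → 0 ≤ κ → 0 < ε → ∀ (M : Type) [Field M] [NumberField M] (j : M)
      (W : Finset (HeightOneSpectrum (𝓞 M))), (∀ w ∈ W, 1 < w.valuation M j) →
      Height.logHeight₁ j ≤ ((N + 1) * (8 * (1 + N) * d / ε)) *
        ∑ w ∈ W, Real.log (Ideal.absNorm w.asIdeal) → HoldsAt c₁ c₂ d g κ j) := by
    intro ε N d g κ
    by_cases h : 0 < g ∧ 0 ≤ κ ∧ 0 < ε
    · obtain ⟨hg, hκ, hε⟩ := h
      obtain ⟨c₁, hc₁, c₂, h⟩ := Pool.Agent.N751.LS.strong_of_poles d g hg κ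
        ((N + 1) * (8 * (1 + N) * d / ε)) hκ (by positivity)
      exact ⟨c₁, c₂, hc₁, fun _ _ _ M _ _ j W h1 h2 => h M j W h1 h2⟩
    · exact ⟨1, 0, one_pos, fun h1 h2 h3 => absurd ⟨h1, h2, h3⟩ h⟩
  choose c₁ c₂ hc₁ hc using hc
  refine ⟨c₁, c₂, hc₁, ?_⟩
  intro K _ _ r hr
  refine ⟨Pool.Agent.N31.FR.t K r hr, ?_⟩
  intro D₀ ε hD₁ hD₀ hε
  obtain ⟨E, hE1, hE2⟩ := Pool.Agent.J6H60.DR.lineK (K := K) r hr D₀ hD₀ hD₁ hε
  refine ⟨E, ?_, ?_⟩
  · intro U hU
    obtain ⟨h1, h2⟩ := hE1 U hU
    refine ⟨h1, h2.trans_eq ?_⟩
    rw [Nat.cast_sub hD₀]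
    push_cast
    rfl
  · intro k _ A B N d g κ hAB hB hN hD hg hκ
    obtain ⟨U₀, h⟩ := hE2 k A B N hAB hB hN hD
    refine ⟨U₀, ?_⟩
    intro M _ _ _ _ _ x hM hx hxK hxE hU
    obtain ⟨hB0, W, hW, hWs⟩ := h M x hM hx hxK hxE hU
    refine ⟨hB0, ?_⟩
    by_cases hd : Module.finrank ℚ M ≤ d
    · refine hc ε N d g κ hg hκ hε M _ W hW (hWs.trans ?_)
      have hsum0 : 0 ≤ ∑ w ∈ W, Real.log (Ideal.absNorm w.asIdeal : ℝ) :=
        Finset.sum_nonneg fun w _ => Real.log_natCast_nonneg _
      refine mul_le_mul_of_nonneg_right ?_ hsum0
      refine mul_le_mul_of_nonneg_left ?_ (by positivity)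
      refine div_le_div_of_nonneg_right ?_ hε.le
      refine mul_le_mul_of_nonneg_left ?_ (by positivity)
      have hfd := Pool.Agent.J6H60.DR.fd_of_nf k
      have h1 : Module.finrank ℚ K * Module.finrank K k = Module.finrank ℚ k :=
        Module.finrank_mul_finrank ℚ K k
      have h2 : Module.finrank ℚ k * Module.finrank k M = Module.finrank ℚ M :=
        Module.finrank_mul_finrank ℚ k M
      have h3 : 0 < Module.finrank ℚ K := Module.finrank_pos
      rw [hM] at h2
      have h4 : Module.finrank K k ≤ d := by nlinarith
      exact_mod_cast h4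
    · intro F _ _ _ hF
      exfalso
      apply hd
      have h2 : Module.finrank ℚ M * Module.finrank M F = Module.finrank ℚ F :=
        Module.finrank_mul_finrank ℚ M F
      have : FiniteDimensional M F := Module.Finite.of_restrictScalars_finite ℚ M F
      have h3 : 0 < Module.finrank M F := Module.finrank_pos
      nlinarith

end Pool.Agent.Results.MP_f5471b_nt.DegreeRPoints
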